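import Mathlib

/-! Systems of bilinear equations with coefficients `0` and `1`, over fields of different characteristics. -/

namespace Pool.Agent.E8helper16.ZD

open Finset

variable {m n : ℕ}

open Classical in
/-- the bilinear equations of the relation `E` have a solution over `K` in which `x i0` and `y j0` are units -/
def Sol (E : Fin m × Fin n → Fin m × Fin n → Prop) (i0 : Fin m) (j0 : Fin n) (K : Type) [CommRing K] : Prop :=
  ∃ (x : Fin m → K) (y : Fin n → K), IsUnit (x i0) ∧ IsUnit (y j0) ∧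
    ∀ c, ∑ p ∈ univ.filter (fun p => E p c), x p.1 * y p.2 = 0

theorem Sol.map {E : Fin m × Fin n → Fin m × Fin n → Prop} {i0 : Fin m} {j0 : Fin n} {K L : Type} [CommRing K]
    [CommRing L] (h : Sol E i0 j0 K) (f : K →+* L) : Sol E i0 j0 L := by
  classical
  obtain ⟨x, y, h1, h2, h3⟩ := h
  refine ⟨fun i => f (x i), fun j => f (y j), h1.map f, h2.map f, fun c => ?_⟩
  have h4 := congrArg f (h3 c)
  rw [map_sum, map_zero] at h4
  simpa using h4

theorem sol_pi {E : Fin m × Fin n → Fin m × Fin n → Prop} {i0 : Fin m} {j0 : Fin n} {S : Type} (K : S → Type)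
    [∀ s, Field (K s)] (h : ∀ s, Sol E i0 j0 (K s)) : Sol E i0 j0 (∀ s, K s) := by
  classical
  choose x y h1 h2 h3 using h
  refine ⟨fun i s => x s i, fun j s => y s j, Pi.isUnit_iff.2 h1, Pi.isUnit_iff.2 h2, fun c => ?_⟩
  funext s
  rw [Finset.sum_apply]
  exact h3 s c

theorem exists_charZero (S : Set ℕ) (hS : S.Infinite) (K : S → Type) [∀ s, Field (K s)]
    (hK : ∀ s : S, CharP (K s) s.1) :
    ∃ (L : Type) (_ : Field L) (_ : CharZero L), Nonempty ((∀ s, K s) →+* L) := by
  classical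
  have hS' : Infinite S := hS.to_subtype
  let I : Ideal (∀ s, K s) :=
    { carrier := {f | {s | f s ≠ 0}.Finite}
      zero_mem' := by simp
      add_mem' := by
        intro f g hf hg
        refine (hf.union hg).subset fun s hs => ?_
        by_contra h
        rw [Set.mem_union, not_or] at h
        have h1 : f s = 0 := not_not.1 h.1
        have h2 : g s = 0 := not_not.1 h.2
        exact hs (by simp [h1, h2])
      smul_mem' := by
        intro c f hf
        refine hf.subset fun s hs => ?_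
        intro h
        exact hs (by simp [h]) }
  have hI : I ≠ ⊤ := by
    intro h
    have h1 : (1 : ∀ s, K s) ∈ I := by rw [h]; trivial
    have h2 : {s : S | (1 : ∀ s, K s) s ≠ 0}.Finite := h1
    have h3 : {s : S | (1 : ∀ s, K s) s ≠ 0} = Set.univ := by
      ext s
      simp
    rw [h3] at h2
    exact Set.infinite_univ h2
  obtain ⟨M, hM, hIM⟩ := Ideal.exists_le_maximal I hI
  let _ : Field ((∀ s, K s) ⧸ M) := Ideal.Quotient.field M
  refine ⟨(∀ s, K s) ⧸ M, inferInstance, ?_, ⟨Ideal.Quotient.mk M⟩⟩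
  refine charZero_of_inj_zero fun k hk => ?_
  by_contra hk0
  have h1 : ((k : ∀ s, K s)) ∈ M := by
    rw [← Ideal.Quotient.eq_zero_iff_mem, map_natCast]
    exact hk
  have h2 : (1 - (k : ∀ s, K s) * fun s => ((k : K s))⁻¹) ∈ I := by
    have h3 : {s : S | (s : ℕ) ∣ k}.Finite := by
      refine Set.Finite.of_finite_image (f := fun s : S => (s : ℕ)) ?_ Subtype.val_injective.injOn
      refine (Set.finite_Iic k).subset ?_
      rintro _ ⟨s, hs, rfl⟩
      exact Nat.le_of_dvd (Nat.pos_of_ne_zero hk0) hs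
    refine h3.subset fun s hs => ?_
    by_contra h
    apply hs
    have h4 : (k : K s) ≠ 0 := by
      intro h5
      exact h ((CharP.cast_eq_zero_iff (K s) (s : ℕ) k).1 h5)
    simp [mul_inv_cancel₀ h4]
  have h3 := M.add_mem (hIM h2) (M.mul_mem_right (fun s => ((k : K s))⁻¹) h1)
  rw [sub_add_cancel] at h3
  exact hM.ne_top ((Ideal.eq_top_iff_one M).2 h3)

theorem alg_lift (k S F : Type) [Field k] [Field S] [Field F] [Algebra k S] [Algebra k F] [IsAlgClosed F]
    (h : Algebra.FiniteType k S) : Nonempty (S →+* F) := by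
  have hfin : Module.Finite k S := finite_of_finite_type_of_isJacobsonRing k S
  have halg : Algebra.IsAlgebraic k S := inferInstance
  exact ⟨((IsAlgClosed.lift : S →ₐ[k] F) : S →+* F)⟩

/-- solutions over an extension of `k` give solutions over an algebraically closed extension of `k` -/
theorem sol_algClosed {E : Fin m × Fin n → Fin m × Fin n → Prop} {i0 : Fin m} {j0 : Fin n} (k K F : Type) [Field k]
    [Field K] [Field F] [Algebra k K] [Algebra k F] [IsAlgClosed F] (h : Sol E i0 j0 K) : Sol E i0 j0 F := by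
  classical
  obtain ⟨x, y, h1, h2, h3⟩ := h
  let T : Set K := Set.range x ∪ Set.range y ∪ {(x i0)⁻¹, (y j0)⁻¹}
  have hT : T.Finite := ((Set.finite_range x).union (Set.finite_range y)).union (by simp)
  let A : Subalgebra k K := Algebra.adjoin k T
  have hA : A.FG := ⟨hT.toFinset, by simp [A]⟩
  have hx : ∀ i, x i ∈ A := fun i => Algebra.subset_adjoin (Or.inl (Or.inl ⟨i, rfl⟩))
  have hy : ∀ j, y j ∈ A := fun j => Algebra.subset_adjoin (Or.inl (Or.inr ⟨j, rfl⟩))
  have hx' : (x i0)⁻¹ ∈ A := Algebra.subset_adjoin (Or.inr (by simp))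
  have hy' : (y j0)⁻¹ ∈ A := Algebra.subset_adjoin (Or.inr (by simp))
  have hSA : Sol E i0 j0 A := by
    refine ⟨fun i => ⟨x i, hx i⟩, fun j => ⟨y j, hy j⟩, ?_, ?_, fun c => ?_⟩
    · exact IsUnit.of_mul_eq_one ⟨_, hx'⟩ (Subtype.ext (mul_inv_cancel₀ h1.ne_zero))
    · exact IsUnit.of_mul_eq_one ⟨_, hy'⟩ (Subtype.ext (mul_inv_cancel₀ h2.ne_zero))
    · apply Subtype.ext
      have h4 := h3 c
      simpa using h4
  have hFT : Algebra.FiniteType k A := (Subalgebra.fg_iff_finiteType A).1 hA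
  obtain ⟨M, hM⟩ := Ideal.exists_maximal A
  let _ : Field (A ⧸ M) := Ideal.Quotient.field M
  have hFT2 : Algebra.FiniteType k (A ⧸ M) := hFT.of_surjective (Ideal.Quotient.mkₐ k M) (Ideal.Quotient.mkₐ_surjective k M)
  obtain ⟨f⟩ := alg_lift k (A ⧸ M) F hFT2
  exact (hSA.map (Ideal.Quotient.mk M)).map f

/-- from characteristic `0` to characteristic `p` -/
theorem sol_char_p {E : Fin m × Fin n → Fin m × Fin n → Prop} {i0 : Fin m} {j0 : Fin n} (K : Type) [Field K]
    [CharZero K] (h : Sol E i0 j0 K) (p : ℕ) (hp : p.Prime) :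
    ∃ (i1 : Fin m) (j1 : Fin n) (L : Type) (_ : Field L) (_ : CharP L p), Sol E i1 j1 L := by
  classical
  obtain ⟨x, y, h1, h2, h3⟩ := h
  let A : Subring K := (Int.castRingHom K).range
  let I : Ideal A := Ideal.span {((p : ℕ) : A)}
  have hI : I ≠ ⊤ := by
    intro h
    have h4 : (1 : A) ∈ I := by rw [h]; trivial
    obtain ⟨a, ha⟩ := Ideal.mem_span_singleton'.1 h4
    obtain ⟨⟨z, hz⟩⟩ : Nonempty {z : ℤ // (z : K) = (a : K)} := by
      obtain ⟨z, hz⟩ := a.2
      exact ⟨⟨z, hz⟩⟩
    have h5 : (z : K) * (p : K) = 1 := by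
      rw [hz]
      exact_mod_cast congrArg Subtype.val ha
    have h6 : z * (p : ℤ) = 1 := by exact_mod_cast h5
    have h7 : (p : ℤ) ∣ 1 := ⟨z, by rw [← h6]; ring⟩
    have h8 := Int.eq_one_of_dvd_one (by positivity) h7
    exact hp.one_lt.ne' (by exact_mod_cast h8)
  obtain ⟨B, hAB, hB⟩ := Ideal.image_subset_nonunits_valuationSubring I hI
  have hpB : ((p : ℕ) : K) ∈ B.nonunits := by
    apply hB
    exact ⟨((p : ℕ) : A), Ideal.subset_span rfl, by simp⟩
  obtain ⟨i1, -, hi1⟩ := Finset.exists_max_image univ (fun i => B.valuation (x i)) ⟨i0, mem_univ _⟩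
  obtain ⟨j1, -, hj1⟩ := Finset.exists_max_image univ (fun j => B.valuation (y j)) ⟨j0, mem_univ _⟩
  have hx1 : x i1 ≠ 0 := by
    intro h
    have h4 := hi1 i0 (mem_univ _)
    rw [h, map_zero] at h4
    exact h1.ne_zero ((B.valuation).zero_iff.1 (le_antisymm h4 zero_le))
  have hy1 : y j1 ≠ 0 := by
    intro h
    have h4 := hj1 j0 (mem_univ _)
    rw [h, map_zero] at h4
    exact h2.ne_zero ((B.valuation).zero_iff.1 (le_antisymm h4 zero_le))
  have hx : ∀ i, x i / x i1 ∈ B := by
    intro i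
    rw [← B.valuation_le_one_iff, map_div₀]
    exact div_le_one_of_le₀ (hi1 i (mem_univ _)) zero_le
  have hy : ∀ j, y j / y j1 ∈ B := by
    intro j
    rw [← B.valuation_le_one_iff, map_div₀]
    exact div_le_one_of_le₀ (hj1 j (mem_univ _)) zero_le
  have hSB : Sol E i1 j1 B := by
    refine ⟨fun i => ⟨x i / x i1, hx i⟩, fun j => ⟨y j / y j1, hy j⟩, ?_, ?_, fun c => ?_⟩
    · have : (⟨x i1 / x i1, hx i1⟩ : B) = 1 := Subtype.ext (div_self hx1)
      show IsUnit (⟨x i1 / x i1, hx i1⟩ : B)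
      rw [this]
      exact isUnit_one
    · have : (⟨y j1 / y j1, hy j1⟩ : B) = 1 := Subtype.ext (div_self hy1)
      show IsUnit (⟨y j1 / y j1, hy j1⟩ : B)
      rw [this]
      exact isUnit_one
    · apply Subtype.ext
      have h4 := h3 c
      have h5 : ∑ p ∈ univ.filter (fun p => E p c), (x p.1 / x i1) * (y p.2 / y j1) =
          (∑ p ∈ univ.filter (fun p => E p c), x p.1 * y p.2) / (x i1 * y j1) := by
        rw [Finset.sum_div]
        refine Finset.sum_congr rfl fun p _ => ?_
        field_simp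
      rw [h4, zero_div] at h5
      simpa using h5
  refine ⟨i1, j1, IsLocalRing.ResidueField B, inferInstance, ?_, hSB.map (IsLocalRing.residue B)⟩
  rw [CharP.charP_iff_prime_eq_zero hp]
  have h6 : ((p : ℕ) : B) ∈ IsLocalRing.maximalIdeal B := by
    rw [IsLocalRing.mem_maximalIdeal, mem_nonunits_iff]
    intro h7
    have h8 := (ValuationSubring.mem_nonunits_iff B).1 hpB
    have h9 := (B.valuation_eq_one_iff ((p : ℕ) : B)).1 h7
    have h10 : B.valuation ((p : ℕ) : K) = 1 := by exact_mod_cast h9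
    rw [h10] at h8
    exact lt_irrefl _ h8
  have h7 := (IsLocalRing.residue_eq_zero_iff (R := B) ((p : ℕ) : B)).2 h6
  rw [map_natCast] at h7
  exact h7

end Pool.Agent.E8helper16.ZD
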