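import Pool.Agent.E8helper16.ZD.Alg

/-! Zero divisors in group rings and systems of bilinear equations. -/

namespace Pool.Agent.E8helper16.ZD

open Finset

/-- `K[G]` has zero divisors with supports of size at most `m` and `n`: there are `a, b ≠ 0` with `a * b = 0`, the
supports of `a` and `b` having at most `m` and at most `n` elements -/
def ZDiv (K G : Type) [CommRing K] [Group G] (m n : ℕ) : Prop :=
  ∃ a b : MonoidAlgebra K G, a ≠ 0 ∧ b ≠ 0 ∧ a.coeff.support.card ≤ m ∧ b.coeff.support.card ≤ n ∧ a * b = 0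

section
variable {K G : Type} [CommRing K] [Group G] {m n : ℕ}

/-- the element with the coefficients `x` at the group elements `g` -/
noncomputable def elt (g : Fin m → G) (x : Fin m → K) : MonoidAlgebra K G := ∑ i, MonoidAlgebra.single (g i) (x i)

theorem elt_coeff (g : Fin m → G) (hg : Function.Injective g) (x : Fin m → K) (i : Fin m) :
    (elt g x).coeff (g i) = x i := by
  classical
  rw [elt, MonoidAlgebra.coeff_sum, Finsupp.finset_sum_apply, Finset.sum_eq_single i]
  · simp
  · intro j _ hj
    rw [MonoidAlgebra.coeff_single, Finsupp.single_apply, if_neg]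
    exact fun h => hj (hg h)
  · simp

theorem elt_card (g : Fin m → G) (x : Fin m → K) : (elt g x).coeff.support.card ≤ m := by
  classical
  have h : (elt g x).coeff.support ⊆ univ.image g := by
    intro z hz
    by_contra h
    rw [Finsupp.mem_support_iff] at hz
    apply hz
    rw [elt, MonoidAlgebra.coeff_sum, Finsupp.finset_sum_apply]
    refine Finset.sum_eq_zero fun i _ => ?_
    rw [MonoidAlgebra.coeff_single, Finsupp.single_apply, if_neg]
    intro h1
    exact h (mem_image.2 ⟨i, mem_univ _, h1⟩)
  refine (card_le_card h).trans (card_image_le.trans ?_)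
  simp

open Classical in
theorem elt_mul_coeff (g : Fin m → G) (h : Fin n → G) (x : Fin m → K) (y : Fin n → K) (z : G) :
    (elt g x * elt h y).coeff z = ∑ p ∈ univ.filter (fun p : Fin m × Fin n => g p.1 * h p.2 = z), x p.1 * y p.2 := by
  have h1 : elt g x * elt h y = ∑ p : Fin m × Fin n, MonoidAlgebra.single (g p.1 * h p.2) (x p.1 * y p.2) := by
    rw [elt, elt, Finset.sum_mul_sum, Fintype.sum_prod_type]
    refine Finset.sum_congr rfl fun i _ => Finset.sum_congr rfl fun j _ => ?_
    rw [MonoidAlgebra.single_mul_single]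
  rw [h1, MonoidAlgebra.coeff_sum, Finsupp.finset_sum_apply, Finset.sum_filter]
  refine Finset.sum_congr rfl fun p _ => ?_
  rw [MonoidAlgebra.coeff_single, Finsupp.single_apply]

theorem exists_elt (a : MonoidAlgebra K G) : ∃ (g : Fin a.coeff.support.card → G) (x : Fin a.coeff.support.card → K),
    Function.Injective g ∧ (∀ i, x i ≠ 0) ∧ a = elt g x := by
  classical
  let e := a.coeff.support.equivFin
  refine ⟨fun i => (e.symm i : G), fun i => a.coeff (e.symm i : G), ?_, ?_, ?_⟩
  · exact Subtype.val_injective.comp e.symm.injective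
  · intro i
    exact Finsupp.mem_support_iff.1 (e.symm i).2
  · rw [elt]
    have h1 : ∑ i : Fin a.coeff.support.card, MonoidAlgebra.single ((e.symm i : G)) (a.coeff (e.symm i : G)) =
        ∑ z : a.coeff.support, MonoidAlgebra.single (z : G) (a.coeff (z : G)) :=
      Equiv.sum_comp e.symm (fun z : a.coeff.support => MonoidAlgebra.single (z : G) (a.coeff (z : G)))
    rw [h1, Finset.sum_coe_sort a.coeff.support (fun z => MonoidAlgebra.single z (a.coeff z))]
    exact (MonoidAlgebra.sum_coeff_single a).symm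

/-- the relation of the pairs with equal product -/
def Eq2 (g : Fin m → G) (h : Fin n → G) : Fin m × Fin n → Fin m × Fin n → Prop :=
  fun p c => g p.1 * h p.2 = g c.1 * h c.2

theorem zdiv_of_sol [Nontrivial K] {k l : ℕ} (hk : k ≤ m) (hl : l ≤ n) (g : Fin k → G) (h : Fin l → G)
    (hg : Function.Injective g) (hh : Function.Injective h) {i0 : Fin k} {j0 : Fin l} (hs : Sol (Eq2 g h) i0 j0 K) :
    ZDiv K G m n := by
  classical
  obtain ⟨x, y, h1, h2, h3⟩ := hs
  refine ⟨elt g x, elt h y, ?_, ?_, (elt_card g x).trans hk, (elt_card h y).trans hl, ?_⟩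
  · intro h4
    have h5 := elt_coeff g hg x i0
    rw [h4] at h5
    exact h1.ne_zero h5.symm
  · intro h4
    have h5 := elt_coeff h hh y j0
    rw [h4] at h5
    exact h2.ne_zero h5.symm
  · apply MonoidAlgebra.coeff_injective
    ext z
    rw [elt_mul_coeff]
    by_cases hz : ∃ c : Fin k × Fin l, g c.1 * h c.2 = z
    · obtain ⟨c, rfl⟩ := hz
      exact h3 c
    · rw [Finset.filter_false_of_mem (fun p _ hp => hz ⟨p, hp⟩)]
      simp

theorem sol_of_zdiv {K G : Type} [Field K] [Group G] {m n : ℕ} (hz : ZDiv K G m n) :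
    ∃ (k l : ℕ) (_ : k ≤ m) (_ : l ≤ n) (g : Fin k → G) (h : Fin l → G) (i0 : Fin k) (j0 : Fin l),
      Function.Injective g ∧ Function.Injective h ∧ Sol (Eq2 g h) i0 j0 K := by
  classical
  obtain ⟨a, b, ha, hb, h1, h2, h3⟩ := hz
  obtain ⟨g, x, hg, hx, hax⟩ := exists_elt a
  obtain ⟨h, y, hh, hy, hby⟩ := exists_elt b
  have ha0 : 0 < a.coeff.support.card := by
    rw [Finset.card_pos, Finsupp.support_nonempty_iff]
    exact fun h => ha (MonoidAlgebra.coeff_injective h)
  have hb0 : 0 < b.coeff.support.card := by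
    rw [Finset.card_pos, Finsupp.support_nonempty_iff]
    exact fun h => hb (MonoidAlgebra.coeff_injective h)
  refine ⟨_, _, h1, h2, g, h, ⟨0, ha0⟩, ⟨0, hb0⟩, hg, hh, x, y, (hx _).isUnit, (hy _).isUnit, fun c => ?_⟩
  have h4 := elt_mul_coeff g h x y (g c.1 * h c.2)
  rw [← hax, ← hby, h3] at h4
  exact h4.symm

end

end Pool.Agent.E8helper16.ZD
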