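import Pool.Agent.E8helper16.ZD.Grp

/-! Transfer of zero divisors between characteristics. -/

namespace Pool.Agent.E8helper16.ZD

open Finset

/-- same characteristic -/
theorem zdiv_algClosed (k K F G : Type) [Field k] [Field K] [Field F] [Algebra k K] [Algebra k F] [IsAlgClosed F]
    [Group G] {m n : ℕ} (h : ZDiv K G m n) : ZDiv F G m n := by
  obtain ⟨k', l, hk, hl, g, h, i0, j0, hg, hh, hs⟩ := sol_of_zdiv h
  exact zdiv_of_sol hk hl g h hg hh (sol_algClosed k K F hs)

/-- from characteristic `0` to characteristic `p` -/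
theorem zdiv_zero_p (K F G : Type) [Field K] [CharZero K] [Field F] (p : ℕ) (hp : p.Prime) [CharP F p] [IsAlgClosed F]
    [Group G] {m n : ℕ} (h : ZDiv K G m n) : ZDiv F G m n := by
  obtain ⟨k', l, hk, hl, g, h, i0, j0, hg, hh, hs⟩ := sol_of_zdiv h
  obtain ⟨i1, j1, L, _, _, hs1⟩ := sol_char_p K hs p hp
  have : Fact p.Prime := ⟨hp⟩
  let _ : Algebra (ZMod p) L := ZMod.algebra L p
  let _ : Algebra (ZMod p) F := ZMod.algebra F p
  exact zdiv_of_sol hk hl g h hg hh (sol_algClosed (ZMod p) L F hs1)

/-- for one pattern: from large characteristic to characteristic `0` -/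
theorem sol_large {k l : ℕ} (E : Fin k × Fin l → Fin k × Fin l → Prop) (i0 : Fin k) (j0 : Fin l) :
    ∃ p0 : ℕ, ∀ p : ℕ, p.Prime → p0 ≤ p → ∀ (K : Type) [Field K] [CharP K p], Sol E i0 j0 K →
      ∀ (F : Type) [Field F] [CharZero F] [IsAlgClosed F], Sol E i0 j0 F := by
  classical
  let S : Set ℕ := {p | p.Prime ∧ ∃ (K : Type) (_ : Field K) (_ : CharP K p), Sol E i0 j0 K}
  by_cases hS : S.Infinite
  · refine ⟨0, fun p _ _ K _ _ _ F _ _ _ => ?_⟩
    choose K h1 h2 h3 using fun s : S => s.2.2
    let _ := h1
    obtain ⟨L, _, _, ⟨f⟩⟩ := exists_charZero S hS K h2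
    have h4 : Sol E i0 j0 L := (sol_pi K h3).map f
    exact sol_algClosed ℚ L F h4
  · rw [Set.not_infinite] at hS
    obtain ⟨N, hN⟩ := hS.bddAbove
    refine ⟨N + 1, fun p hp hpN K _ _ hs F _ _ _ => ?_⟩
    have h1 : p ≤ N := hN ⟨hp, K, inferInstance, inferInstance, hs⟩
    omega

/-- the patterns -/
abbrev Pat (m n : ℕ) : Type :=
  Σ k : Fin (m + 1), Σ l : Fin (n + 1), (Fin k × Fin l → Fin k × Fin l → Prop) × (Fin k × Fin l)

/-- from large characteristic to characteristic `0`, uniformly in the group -/
theorem zdiv_large (m n : ℕ) : ∃ p0 : ℕ, ∀ p : ℕ, p.Prime → p0 ≤ p → ∀ (K G : Type) [Field K] [CharP K p] [Group G],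
    ZDiv K G m n → ∀ (F : Type) [Field F] [CharZero F] [IsAlgClosed F], ZDiv F G m n := by
  classical
  choose P hP using fun t : Pat m n => sol_large t.2.2.1 t.2.2.2.1 t.2.2.2.2
  have : Finite (Pat m n) := inferInstance
  obtain ⟨N, hN⟩ := Finite.exists_le P
  refine ⟨N, fun p hp hpN K G _ _ _ hz F _ _ _ => ?_⟩
  obtain ⟨k, l, hk, hl, g, h, i0, j0, hg, hh, hs⟩ := sol_of_zdiv hz
  let t : Pat m n := ⟨⟨k, by omega⟩, ⟨l, by omega⟩, Eq2 g h, (i0, j0)⟩
  exact zdiv_of_sol hk hl g h hg hh (hP t p hp ((hN t).trans hpN) K hs F)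

/-- the image under an injective ring homomorphism of the coefficients -/
theorem zdiv_map {K L G : Type} [CommRing K] [CommRing L] [Group G] (f : K →+* L) (hf : Function.Injective f) {m n : ℕ}
    (h : ZDiv K G m n) : ZDiv L G m n := by
  classical
  obtain ⟨a, b, ha, hb, h1, h2, h3⟩ := h
  have hinj : ∀ c : MonoidAlgebra K G, c ≠ 0 → MonoidAlgebra.mapRingHom G f c ≠ 0 := by
    intro c hc h0
    apply hc
    apply MonoidAlgebra.coeff_injective
    ext z
    have h4 := congrArg (fun w => MonoidAlgebra.coeff w z) h0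
    simp only [MonoidAlgebra.coeff_mapRingHom] at h4
    exact hf (by simpa using h4)
  have hcard : ∀ c : MonoidAlgebra K G, (MonoidAlgebra.mapRingHom G f c).coeff.support.card ≤ c.coeff.support.card := by
    intro c
    refine Finset.card_le_card fun z hz => ?_
    rw [Finsupp.mem_support_iff] at hz ⊢
    intro h4
    apply hz
    rw [MonoidAlgebra.coeff_mapRingHom, h4, map_zero]
  exact ⟨_, _, hinj a ha, hinj b hb, (hcard a).trans h1, (hcard b).trans h2, by rw [← map_mul, h3, map_zero]⟩

theorem zdiv_of_not {K G : Type} [CommRing K] [Group G] (h : ¬ NoZeroDivisors (MonoidAlgebra K G)) :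
    ∃ m n : ℕ, ZDiv K G m n := by
  rw [noZeroDivisors_iff] at h
  push Not at h
  obtain ⟨a, b, hab, ha, hb⟩ := h
  exact ⟨_, _, a, b, ha, hb, le_rfl, le_rfl, hab⟩

theorem not_zdiv {K G : Type} [CommRing K] [Group G] (h : NoZeroDivisors (MonoidAlgebra K G)) (m n : ℕ) :
    ¬ ZDiv K G m n := by
  rintro ⟨a, b, ha, hb, -, -, hab⟩
  rcases mul_eq_zero.1 hab with h1 | h1
  · exact ha h1
  · exact hb h1

/-- domains over an algebraically closed field -/
theorem main_A (F R D G : Type) [Field F] [IsAlgClosed F] [CommRing R] [IsDomain R] [CommRing D] [IsDomain D] [Group G]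
    (f : F →+* R) (hD : ringChar D = 0 ∨ ringChar D = ringChar F) (h : NoZeroDivisors (MonoidAlgebra R G)) :
    NoZeroDivisors (MonoidAlgebra D G) := by
  by_contra hc
  obtain ⟨m, n, h1⟩ := zdiv_of_not hc
  have h2 : ZDiv (FractionRing D) G m n := zdiv_map (algebraMap D (FractionRing D)) (IsFractionRing.injective D _) h1
  have h3 : ¬ ZDiv F G m n := fun h4 => not_zdiv h m n (zdiv_map f f.injective h4)
  apply h3
  have hchar : ringChar (FractionRing D) = ringChar D :=
    ringChar.eq_iff.2 (charP_of_injective_ringHom (IsFractionRing.injective D (FractionRing D)) (ringChar D))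
  rcases Nat.eq_zero_or_pos (ringChar F) with h5 | h5
  · have h6 : ringChar D = 0 := by
      rcases hD with h6 | h6
      · exact h6
      · rw [h6, h5]
    have : CharP (FractionRing D) 0 := by
      have := ringChar.charP (FractionRing D)
      rwa [hchar, h6] at this
    have : CharZero (FractionRing D) := CharP.charP_to_charZero _
    have : CharP F 0 := by
      have := ringChar.charP F
      rwa [h5] at this
    have : CharZero F := CharP.charP_to_charZero _
    exact zdiv_algClosed ℚ (FractionRing D) F G h2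
  · have hF : CharP F (ringChar F) := ringChar.charP F
    have hprime : (ringChar F).Prime := (CharP.char_is_prime_or_zero F (ringChar F)).resolve_right h5.ne'
    rcases hD with h6 | h6
    · have : CharP (FractionRing D) 0 := by
        have := ringChar.charP (FractionRing D)
        rwa [hchar, h6] at this
      have : CharZero (FractionRing D) := CharP.charP_to_charZero _
      exact zdiv_zero_p (FractionRing D) F G (ringChar F) hprime h2
    · have : CharP (FractionRing D) (ringChar F) := by
        have := ringChar.charP (FractionRing D)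
        rwa [hchar, h6] at this
      have : Fact (ringChar F).Prime := ⟨hprime⟩
      let _ : Algebra (ZMod (ringChar F)) (FractionRing D) := ZMod.algebra _ (ringChar F)
      let _ : Algebra (ZMod (ringChar F)) F := ZMod.algebra F (ringChar F)
      exact zdiv_algClosed (ZMod (ringChar F)) (FractionRing D) F G h2

/-- large characteristic, uniformly in the group -/
theorem main_B (m n : ℕ) : ∃ p0 : ℕ, ∀ (F R D G : Type) [Field F] [IsAlgClosed F] [CharZero F] [CommRing R] [IsDomain R]
    [CommRing D] [IsDomain D] [Group G], (F →+* R) → p0 ≤ ringChar D → NoZeroDivisors (MonoidAlgebra R G) →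
      ∀ a b : MonoidAlgebra D G, a.coeff.support.card ≤ m → b.coeff.support.card ≤ n → a * b = 0 → a = 0 ∨ b = 0 := by
  obtain ⟨p0, hp0⟩ := zdiv_large m n
  refine ⟨p0 + 1, fun F R D G _ _ _ _ _ _ _ _ f hD h a b ha hb hab => ?_⟩
  by_contra hc
  rw [not_or] at hc
  have h1 : ZDiv D G m n := ⟨a, b, hc.1, hc.2, ha, hb, hab⟩
  have h2 : ZDiv (FractionRing D) G m n := zdiv_map (algebraMap D (FractionRing D)) (IsFractionRing.injective D _) h1
  have hchar : ringChar (FractionRing D) = ringChar D :=
    ringChar.eq_iff.2 (charP_of_injective_ringHom (IsFractionRing.injective D (FractionRing D)) (ringChar D))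
  have hK : CharP (FractionRing D) (ringChar D) := by
    have := ringChar.charP (FractionRing D)
    rwa [hchar] at this
  have hprime : (ringChar D).Prime :=
    (CharP.char_is_prime_or_zero (FractionRing D) (ringChar D)).resolve_right (by omega)
  exact not_zdiv h m n (zdiv_map f f.injective (hp0 (ringChar D) hprime (by omega) (FractionRing D) G h2 F))

end Pool.Agent.E8helper16.ZD
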