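import Pool.Agent.E8helper16.ZD.Main

/-! Transfer of zero divisors along places. -/

namespace Pool.Agent.E8helper16.ZD

open Finset

variable {m n : ℕ}

theorem sol_residue {E : Fin m × Fin n → Fin m × Fin n → Prop} {i0 : Fin m} {j0 : Fin n} (K : Type) [Field K]
    (B : ValuationSubring K) (h : Sol E i0 j0 K) :
    ∃ (i1 : Fin m) (j1 : Fin n), Sol E i1 j1 B := by
  classical
  obtain ⟨x, y, h1, h2, h3⟩ := h
  obtain ⟨i1, -, hi1⟩ := Finset.exists_max_image univ (fun i => B.valuation (x i)) ⟨i0, mem_univ _⟩
  obtain ⟨j1, -, hj1⟩ := Finset.exists_max_image univ (fun j => B.valuation (y j)) ⟨j0, mem_univ _⟩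
  have hx1 : x i1 ≠ 0 := by
    intro h
    have h4 := hi1 i0 (mem_univ _)
    rw [h, map_zero] at h4
    exact h1.ne_zero ((B.valuation).zero_iff.1 (le_antisymm h4 zero_le))
  have hy1 : y j1 ≠ 0 := by
    intro h
    have h4 := hj1 j0 (mem_univ _)
    rw [h, map_zero] at h4
    exact h2.ne_zero ((B.valuation).zero_iff.1 (le_antisymm h4 zero_le))
  have hx : ∀ i, x i / x i1 ∈ B := by
    intro i
    rw [← B.valuation_le_one_iff, map_div₀]
    exact div_le_one_of_le₀ (hi1 i (mem_univ _)) zero_le
  have hy : ∀ j, y j / y j1 ∈ B := by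
    intro j
    rw [← B.valuation_le_one_iff, map_div₀]
    exact div_le_one_of_le₀ (hj1 j (mem_univ _)) zero_le
  have hSB : Sol E i1 j1 B := by
    refine ⟨fun i => ⟨x i / x i1, hx i⟩, fun j => ⟨y j / y j1, hy j⟩, ?_, ?_, fun c => ?_⟩
    · have : (⟨x i1 / x i1, hx i1⟩ : B) = 1 := Subtype.ext (div_self hx1)
      show IsUnit (⟨x i1 / x i1, hx i1⟩ : B)
      rw [this]
      exact isUnit_one
    · have : (⟨y j1 / y j1, hy j1⟩ : B) = 1 := Subtype.ext (div_self hy1)
      show IsUnit (⟨y j1 / y j1, hy j1⟩ : B)
      rw [this]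
      exact isUnit_one
    · apply Subtype.ext
      have h4 := h3 c
      have h5 : ∑ p ∈ univ.filter (fun p => E p c), (x p.1 / x i1) * (y p.2 / y j1) =
          (∑ p ∈ univ.filter (fun p => E p c), x p.1 * y p.2) / (x i1 * y j1) := by
        rw [Finset.sum_div]
        refine Finset.sum_congr rfl fun p _ => ?_
        field_simp
      rw [h4, zero_div] at h5
      simpa using h5
  exact ⟨i1, j1, hSB⟩

/-- clearing denominators -/
theorem not_frac (R G : Type) [CommRing R] [IsDomain R] [Group G] (h : NoZeroDivisors (MonoidAlgebra R G)) (m n : ℕ) :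
    ¬ ZDiv (FractionRing R) G m n := by
  classical
  rintro ⟨a, b, ha, hb, -, -, hab⟩
  have key : ∀ c : MonoidAlgebra (FractionRing R) G, c ≠ 0 → ∃ c' : MonoidAlgebra R G, c' ≠ 0 ∧
      ∃ d : R, d ≠ 0 ∧ MonoidAlgebra.mapRingHom G (algebraMap R (FractionRing R)) c' =
        algebraMap R (FractionRing R) d • c := by
    intro c hc
    obtain ⟨⟨d, hd⟩, hd2⟩ := IsLocalization.exist_integer_multiples_of_finset (nonZeroDivisors R)
      (c.coeff.support.image fun z => c.coeff z)
    have hd0 : d ≠ 0 := nonZeroDivisors.ne_zero hd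
    have h1 : ∀ z : G, ∃ r : R, algebraMap R (FractionRing R) r = algebraMap R (FractionRing R) d * c.coeff z := by
      intro z
      by_cases hz : c.coeff z = 0
      · exact ⟨0, by rw [hz]; simp⟩
      · obtain ⟨r, hr⟩ := hd2 (c.coeff z) (mem_image.2 ⟨z, Finsupp.mem_support_iff.2 hz, rfl⟩)
        exact ⟨r, by rw [hr, Algebra.smul_def]⟩
    choose r hr using h1
    let c' : MonoidAlgebra R G := ∑ z ∈ c.coeff.support, MonoidAlgebra.single z (r z)
    have h2 : MonoidAlgebra.mapRingHom G (algebraMap R (FractionRing R)) c' = algebraMap R (FractionRing R) d • c := by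
      apply MonoidAlgebra.coeff_injective
      ext z
      rw [MonoidAlgebra.coeff_mapRingHom, MonoidAlgebra.coeff_sum, Finsupp.finsetSum_apply, map_sum]
      rw [MonoidAlgebra.coeff_smul, Finsupp.smul_apply, smul_eq_mul]
      by_cases hz : c.coeff z = 0
      · rw [hz, mul_zero]
        refine Finset.sum_eq_zero fun w hw => ?_
        rw [MonoidAlgebra.coeff_single, Finsupp.single_apply, if_neg, map_zero]
        rintro rfl
        exact (Finsupp.mem_support_iff.1 hw) hz
      · rw [Finset.sum_eq_single z]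
        · rw [MonoidAlgebra.coeff_single, Finsupp.single_apply, if_pos rfl, hr]
        · intro w _ hw
          rw [MonoidAlgebra.coeff_single, Finsupp.single_apply, if_neg hw, map_zero]
        · intro hw
          exact absurd (Finsupp.mem_support_iff.2 hz) hw
    refine ⟨c', ?_, d, hd0, h2⟩
    intro h0
    rw [h0, map_zero] at h2
    have h3 : algebraMap R (FractionRing R) d ≠ 0 := by
      intro h4
      exact hd0 ((IsFractionRing.injective R (FractionRing R)) (by rw [h4, map_zero]))
    apply hc
    apply MonoidAlgebra.coeff_injective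
    ext z
    have h5 := congrArg (fun w => MonoidAlgebra.coeff w z) h2
    simp only [MonoidAlgebra.coeff_smul, Finsupp.smul_apply, smul_eq_mul] at h5
    have h6 : algebraMap R (FractionRing R) d * c.coeff z = 0 := by simpa using h5.symm
    simpa using (mul_eq_zero.1 h6).resolve_left h3
  obtain ⟨a', ha', d, hd, h1⟩ := key a ha
  obtain ⟨b', hb', e, he, h2⟩ := key b hb
  have h3 : MonoidAlgebra.mapRingHom G (algebraMap R (FractionRing R)) (a' * b') = 0 := by
    rw [map_mul, h1, h2, smul_mul_assoc, mul_smul_comm, hab, smul_zero, smul_zero]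
  have h4 : a' * b' = 0 := by
    apply MonoidAlgebra.coeff_injective
    ext z
    have h5 := congrArg (fun w => MonoidAlgebra.coeff w z) h3
    simp only [MonoidAlgebra.coeff_mapRingHom] at h5
    exact (IsFractionRing.injective R (FractionRing R)) (by simpa using h5)
  rcases mul_eq_zero.1 h4 with h5 | h5
  · exact ha' h5
  · exact hb' h5

/-- transfer along a place -/
theorem main_P (R D K G : Type) [CommRing R] [IsDomain R] [CommRing D] [Field K] [Group G] (g : D →+* K)
    (hg : Function.Injective g) (B : ValuationSubring K) (f : B →+* FractionRing R)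
    (h : NoZeroDivisors (MonoidAlgebra R G)) : NoZeroDivisors (MonoidAlgebra D G) := by
  by_contra hc
  obtain ⟨m, n, h1⟩ := zdiv_of_not hc
  obtain ⟨k, l, hk, hl, g', h', i0, j0, hg', hh', hs⟩ := sol_of_zdiv (zdiv_map g hg h1)
  obtain ⟨i1, j1, hs1⟩ := sol_residue K B hs
  exact not_frac R G h m n (zdiv_of_sol hk hl g' h' hg' hh' (hs1.map f))

/-- the ring of `p`-adic integers as a valuation subring -/
noncomputable def padicB (p : ℕ) [Fact p.Prime] : ValuationSubring ℚ_[p] where
  toSubring := PadicInt.subring p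
  mem_or_inv_mem' x := by
    by_cases h : ‖x‖ ≤ 1
    · exact Or.inl h
    · right
      show ‖x⁻¹‖ ≤ 1
      rw [norm_inv]
      exact inv_le_one_of_one_le₀ (not_le.1 h).le

/-- from characteristic `p` to the subrings of the field of `p`-adic numbers -/
theorem main_Qp (p : ℕ) [Fact p.Prime] (R D G : Type) [CommRing R] [IsDomain R] [CharP R p] [CommRing D] [Group G]
    (g : D →+* ℚ_[p]) (hg : Function.Injective g) (h : NoZeroDivisors (MonoidAlgebra R G)) :
    NoZeroDivisors (MonoidAlgebra D G) := by
  have hK : CharP (FractionRing R) p := charP_of_injective_ringHom (IsFractionRing.injective R (FractionRing R)) p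
  let i : padicB p →+* ℤ_[p] :=
    { toFun := fun x => ⟨x.1, x.2⟩
      map_one' := rfl
      map_mul' := fun _ _ => rfl
      map_zero' := rfl
      map_add' := fun _ _ => rfl }
  exact main_P R D ℚ_[p] G g hg (padicB p) ((ZMod.castHom (dvd_refl p) (FractionRing R)).comp (PadicInt.toZMod.comp i)) h

end Pool.Agent.E8helper16.ZD
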